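import Pool.Agent.Helper54_LQY.All

/-!
# The delocalized regime: measurability, change of variables
-/

set_option autoImplicit false

open MeasureTheory ProbabilityTheory Function Filter

open scoped ENNReal BigOperators Topology NNReal ComplexOrder Matrix

noncomputable section

namespace Pool.Agent.QDR

open Pool.Agent.Anderson hiding box mem_box card_box
open Pool.Agent.Loc Pool.Agent.Mob Pool.Agent.Helper54.Bal
  Pool.Agent.Helper96.EXP Pool.Agent.BED
open Pool.Agent.LE Pool.Agent.LE.MN Pool.Agent.LE.CL Pool.Agent.LE.IR Pool.Agent.LE.QD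
  Pool.Agent.LE.QX Pool.Agent.LE.QY

/-- the resolvent depends measurably on the potential -/
theorem measG (d : ℕ) (hd : 1 ≤ d) {E η : ℝ} (hη : 0 < η) (hη1 : η ≤ 1) (x y : Site d) :
    Measurable fun V : Site d → ℝ => G V ⟨E, η⟩ (del x) y := by
  obtain ⟨C, hC, h⟩ := QY.H54.lttT d hd
  obtain ⟨L₀, hL₀⟩ : ∃ L₀ : ℕ, L₀ = max 1 (max (2 * sd 0 x) (sd 0 y)) := ⟨_, rfl⟩
  have e1 : ∀ L : ℕ, NeZero (4 * (L₀ + L) + 9) := fun L => ⟨by omega⟩
  have key : ∀ (L : ℕ) (V : Site d → ℝ),
      ‖G V ⟨E, η⟩ (del x) y - rs (fun p : Tor d (4 * (L₀ + L) + 9) => V (rep p)) ⟨E, η⟩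
        (ti _ 0 x) (ti _ 0 y)‖ ^ 2 ≤ C / (((L₀ + L : ℕ) : ℝ) ^ 6 * η ^ 8) := by
    intro L V
    have h1 := h (4 * (L₀ + L) + 9) (L₀ + L) V 0 E η x hη hη1 (by omega) (by omega) (by omega)
    simp only [zero_add] at h1
    refine le_trans ?_ h1
    have hy : y ∈ box (0 : Site d) (L₀ + L) := by
      rw [mem_box]
      omega
    exact Finset.single_le_sum (f := fun y => ‖G V ⟨E, η⟩ (del x) y -
      rs (fun p : Tor d (4 * (L₀ + L) + 9) => V (rep p)) ⟨E, η⟩ (ti _ 0 x) (ti _ 0 y)‖ ^ 2)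
      (fun _ _ => by positivity) hy
  have hmeas : ∀ L : ℕ, Measurable fun V : Site d → ℝ =>
      rs (fun p : Tor d (4 * (L₀ + L) + 9) => V (rep p)) ⟨E, η⟩ (ti _ 0 x) (ti _ 0 y) := by
    intro L
    exact (QD.H76.cont (⟨E, η⟩ : ℂ) hη.ne' _ _).measurable.comp
      (measurable_pi_lambda _ fun x => measurable_pi_apply _)
  refine measurable_of_tendsto_metrizable hmeas ?_
  rw [tendsto_pi_nhds]
  intro V
  rw [tendsto_iff_norm_sub_tendsto_zero]
  have h2 : Tendsto (fun L : ℕ => Real.sqrt (C / (((L₀ + L : ℕ) : ℝ) ^ 6 * η ^ 8))) atTop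
      (𝓝 0) := by
    have h3 : Tendsto (fun L : ℕ => C / (((L₀ + L : ℕ) : ℝ) ^ 6 * η ^ 8)) atTop (𝓝 0) := by
      have h4 : Tendsto (fun L : ℕ => ((L₀ + L : ℕ) : ℝ)) atTop atTop :=
        tendsto_natCast_atTop_atTop.comp (tendsto_add_atTop_nat L₀ |>.congr fun n => by
          rw [add_comm])
      have h5 : Tendsto (fun L : ℕ => ((L₀ + L : ℕ) : ℝ) ^ 6 * η ^ 8) atTop atTop :=
        ((tendsto_pow_atTop (by norm_num)).comp h4).atTop_mul_const (by positivity)
      exact h5.const_div_atTop C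
    have h6 := (Real.continuous_sqrt.tendsto 0).comp h3
    rwa [Real.sqrt_zero] at h6
  refine squeeze_zero (fun L => norm_nonneg _) (fun L => ?_) h2
  rw [norm_sub_rev]
  exact Real.le_sqrt_of_sq_le (key L V)

/-- the law of `σ ξ` on the lattice -/
theorem map_eq (d : ℕ) (σ : ℝ) :
    (Measure.infinitePi fun _ : Site d => gaussianReal 0 1).map
      (fun (ξ : Site d → ℝ) y => σ * ξ y) = PP d (gl σ) := by
  have hm : ∀ y : Site d, Measurable fun ξ : Site d → ℝ => ξ y := fun y => measurable_pi_apply y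
  have hlaw : ∀ y : Site d, (Measure.infinitePi fun _ : Site d => gaussianReal 0 1).map
      (fun ξ => ξ y) = gaussianReal 0 1 := fun y =>
    (measurePreserving_eval_infinitePi (fun _ : Site d => gaussianReal 0 1) y).map_eq
  have hind : iIndepFun (fun (y : Site d) (ξ : Site d → ℝ) => ξ y)
      (Measure.infinitePi fun _ : Site d => gaussianReal 0 1) :=
    iIndepFun_infinitePi (P := fun _ : Site d => gaussianReal 0 1) (X := fun _ t => t)
      (fun _ => measurable_id)
  exact Pool.Agent.Mob.H42.map_eq_PP hm hlaw hind σ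

theorem meas_mul {ι : Type} (σ : ℝ) : Measurable fun (ξ : ι → ℝ) y => σ * ξ y := by
  refine measurable_pi_lambda _ fun x => ?_
  have h : Measurable fun ξ : ι → ℝ => ξ x := measurable_pi_apply x
  exact h.const_mul σ

/-- sets of potentials -/
theorem set_le (d : ℕ) (σ : ℝ) (A : Set (Site d → ℝ)) {b : ℝ≥0∞} (h : PP d (gl σ) A ≤ b) :
    (Measure.infinitePi fun _ : Site d => gaussianReal 0 1)
      {ξ : Site d → ℝ | (fun y => σ * ξ y) ∈ A} ≤ b := by
  rw [← map_eq d σ] at h
  exact (Measure.le_map_apply (meas_mul σ).aemeasurable A).trans h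

/-- means -/
theorem lint_eq (d : ℕ) (σ : ℝ) (f : (Site d → ℝ) → ℝ≥0∞) (hf : Measurable f) :
    ∫⁻ ξ, f (fun y => σ * ξ y) ∂(Measure.infinitePi fun _ : Site d => gaussianReal 0 1) =
      ∫⁻ V, f V ∂(PP d (gl σ)) := by
  rw [← map_eq d σ, lintegral_map hf (meas_mul σ)]

/-- the law of `σ ξ` on the torus -/
theorem set_le_tor (d M : ℕ) [NeZero M] (σ : ℝ) (v : ℝ≥0) (hv : (v : ℝ) = σ ^ 2)
    (A : Set (Tor d M → ℝ)) {b : ℝ≥0∞} (h : gau d M v A ≤ b) :
    (Measure.pi fun _ : Tor d M => gaussianReal 0 1) {ξ | (fun y => σ * ξ y) ∈ A} ≤ b := by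
  have h1 : (Measure.pi fun _ : Tor d M => gaussianReal 0 1).map
      (fun (ξ : Tor d M → ℝ) y => σ * ξ y) = gau d M v := by
    have hs : ∀ i : Tor d M, SigmaFinite (Measure.map (fun r : ℝ => σ * r) (gaussianReal 0 1)) := by
      intro i
      rw [gaussianReal_map_const_mul]
      infer_instance
    have h2 := Measure.pi_map_pi (μ := fun _ : Tor d M => gaussianReal 0 1)
      (f := fun _ (r : ℝ) => σ * r) (hμ := hs) (fun _ => (measurable_const_mul σ).aemeasurable)
    rw [h2]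
    unfold gau
    congr 1
    funext _
    rw [gaussianReal_map_const_mul]
    congr 1
    · ring
    · ext
      rw [hv]
      simp
  rw [← h1] at h
  exact (Measure.le_map_apply (meas_mul σ).aemeasurable A).trans h

theorem meas_rh (d : ℕ) (hd : 1 ≤ d) {T E : ℝ} (hT : 1 ≤ T) (x : Site d) :
    Measurable fun V : Site d → ℝ => rh V T E x := by
  unfold rh
  have h1 : (1 : ℝ) / T ≤ 1 := by
    rw [div_le_one (by linarith)]
    exact hT
  exact ((measG d hd (by positivity) h1 0 x).norm.pow_const 2).div_const _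

end Pool.Agent.QDR
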