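import Pool.Agent.Helper42_LE.MainJ
import Pool.Agent.Helper96_LE.ExactDecay
import Pool.Agent.Helper96_LE.AllR

/-!
# Existence of the rate
-/

set_option autoImplicit false

open MeasureTheory ProbabilityTheory Filter

open scoped ENNReal NNReal Topology

noncomputable section

namespace Pool.Agent.QDR

open Pool.Agent.Anderson Pool.Agent.Loc Pool.Agent.Mob Pool.Agent.Helper54.Bal Pool.Agent.LE

/-- existence of the rate -/
theorem exists_lya {d : ℕ} (hd : 1 ≤ d) {σ : ℝ} (hσ : σ ≠ 0) (E : ℝ) : ∃ g, LyaAt d σ E g := by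
  obtain ⟨γ, h0, -⟩ := Pool.Agent.LE.H42J.mainJ.{0} Pool.Agent.LE.H96.mainGT
    Pool.Agent.LE.H96.smpT Pool.Agent.LE.H15.smn Pool.Agent.LE.H96.algT d hd
  exact ⟨γ σ E, Pool.Agent.LE.H96.lyaAt_of_pr (h0 σ hσ E).1 (h0 σ hσ E).2⟩

/-- a rate above the exponent has probability tending to `0` -/
theorem pr_tendsto {d : ℕ} {σ E g κ : ℝ} (h : LyaAt d σ E g) (hκ : g < κ) :
    Tendsto (H93.pr d σ E κ) atTop (𝓝 0) := by
  have h1 := (h.2 (κ - g) (by linarith)).1
  rw [show g + (κ - g) = κ by ring] at h1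
  exact h1

end Pool.Agent.QDR
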