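import Pool.Agent.Helper54_QDR.Main
import Pool.Agent.Helper54_QDR.Lya

/-!
# MP_1906c1_mp: the delocalized regime, up to exponentially large scales

For `H = Δ + σ ξ` on `ℤ^d`, `d ≥ 3`, `ξ` iid standard Gaussian, at weak disorder, and all energies in
the bulk, `|E| ≤ 2 d - a`, the following properties, which are expected of extended states, are proved
at all scales up to `exp (|σ|^{-θ})`, `θ > 0`:

* the localization length is at least `exp (|σ|^{-θ})`;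
* all eigenfunctions on the torus of side `M ≤ exp (|σ|^{-θ})` with energies in the bulk are flat, up
  to the factor `|σ|^{-ε}`, and all quasimodes on the lattice are spread out;
* local law: the Green function at `E + i / T`, `T ≤ exp (|σ|^{-θ})`, is uniformly close to the free
  Green function at `E + i / T + σ² m`, `m` the self-energy;
* quantum diffusion: at time `T`, `|σ|^{-3} ≤ T ≤ exp (|σ|^{-θ})`, the particle is at the distance
  `T^{1/2} / |σ|`, up to factors `|σ|^{±ε}` (the diffusion constant is `σ^{-2}`).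

The proof. The potential is built up as a Brownian motion `V_t`, `0 ≤ t ≤ σ²`, while the spectral
parameter is `E + i η + (σ² - t) m`. A functional of the resolvent is a supermartingale, up to small
errors: it contains high moments of the fluctuations `G(x, x) - m` (improved by `(1 - Y)⁻¹`,
`Y = τ G(x, y)²`), of `G(x, y)`, of `∑_y |G(x, y)|⁴`, traces of high powers of `(1 - Y)⁻¹ - 1` and of
the resolvent of the network with the conductances `|G(x, y)|²` relative to a reference network, and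
the energy of the lowest momentum. The noise of the network is controlled by the network itself: the
conductances satisfy a Riccati equation, and the matrix martingale has small quadratic variation
relative to the network because of its transience (`d ≥ 3`).
-/

set_option autoImplicit false

open MeasureTheory ProbabilityTheory Filter

open scoped ENNReal Topology

noncomputable section

namespace Pool.Agent.Results.MP_1906c1_mp.DelocalizedRegime

open Pool.Agent.Anderson Pool.Agent.Loc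

variable {d : ℕ}

/-- The sum over the nearest neighbours, on `ℤ^d` (`R = ℤ`) or on the torus (`R = ZMod M`). -/
def hop {R : Type} [Ring R] (u : (Fin d → R) → ℂ) (x : Fin d → R) : ℂ :=
  ∑ i, (u (x + Pi.single i 1) + u (x - Pi.single i 1))

/-- `g ∈ ℓ²(ℤ^d)` is the solution of `(Δ + V - z) g = δ_x`. -/
def IsGreen (V : Site d → ℝ) (z : ℂ) (x : Site d) (g : Site d → ℂ) : Prop :=
  Summable (fun y => ‖g y‖ ^ 2) ∧
    ∀ y, hop g y + ((V y : ℂ) - z) * g y = if y = x then 1 else 0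

/-- Independent standard Gaussians. -/
def gauss (ι : Type) : Measure (ι → ℝ) := Measure.infinitePi fun _ => gaussianReal 0 1

/-- Exponential decay, at the rate `κ`, of the Green function of `H = Δ + V` in the cube
`Loc.box 0 L`, `|x|_∞ ≤ L`, from the centre to the boundary: `E` is not an eigenvalue of the
restriction of `H` to the cube and the matrix element at `0`, `u` of the inverse of `E - H` in the
cube is at most `e^{-κ L}` for all `u` with `|u|_∞ = L`. -/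
def Decays (V : Site d → ℝ) (E κ : ℝ) (L : ℕ) : Prop :=
  (RM V (Loc.box 0 L) E).det ≠ 0 ∧ ∀ u, sd 0 u = L → |gr V (Loc.box 0 L) E 0 u| ≤ Real.exp (-κ * L)

/-- The mass at `x` of the state with the energy `E` at the time `T`, started at `0`: `|G(0, x)|² / T`,
the time average of `|⟨δ_x, e^{-itH} δ_0⟩|²` resolved in energy. -/
def dens (G : (Site d → ℝ) → ℂ → Site d → Site d → ℂ) (V : Site d → ℝ) (E T : ℝ) (x : Site d) :
    ℝ≥0∞ :=
  ENNReal.ofReal (‖G V ⟨E, 1 / T⟩ 0 x‖ ^ 2 / T)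

/-- Let `d ≥ 3`, `H = Δ + σ ξ` with `ξ(y)`, `y ∈ ℤ^d`, independent standard Gaussians. `G(V, z, x, ·)` is
the unique `ℓ²` solution of `(Δ + V - z) g = δ_x`, `Im z > 0`; it is measurable in `V` for
`Im z ≤ 1`. For all `a > 0` and `0 < ε ≤ 1` there are `θ, c > 0` such that for `0 < |σ| ≤ c`:

* for `|E| ≤ 2 d - a` and every `κ > exp (- |σ|^{-θ})` the probability of decay at the rate `κ` in the
  cube of radius `L` tends to `0` as `L → ∞`;
* on the torus of side `M`, `|σ|^{-5} ≤ M ≤ exp (|σ|^{-θ})`, with probability at least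
  `1 - exp (- |σ|^{-θ})` all eigenfunctions `u` with eigenvalues `|E| ≤ 2 d - a` satisfy
  `|u(x)|² ≤ |σ|^{-ε} M^{-d} ‖u‖²` for all `x`;
* for `|σ|^{-4} ≤ t ≤ exp (|σ|^{-θ})`, with probability at least `1 - exp (- |σ|^{-θ})`: for all
  `R ≥ 3 d t`, all `|E| ≤ 2 d - a` and all `u` with `‖(H - E) u‖² ≤ t^{-2} S` on the cube of radius `R`,
  `S` the sum of `|u|²` over the cube of radius `R + 1`: `|u(x)|² ≤ S / (c t)` for `|x|_∞ ≤ t`, and the
  sum of `|u|²` over any set of at most `t` sites with `|x|_∞ ≤ t` is at most `|σ|^θ S`;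
* for `|E| ≤ 2 d - a` and `|σ|^{-3} ≤ T ≤ exp (|σ|^{-θ})`, `z = E + i / T`:
  there is `m` with `c ≤ Im m`, `|m| ≤ 1 / c`, `|m - G(0, z + σ² m, 0, 0)| ≤ |σ|^θ`, such that with
  probability at least `1 - exp (- |σ|^{-θ})`, `|G(σ ξ, z, x, y) - G(0, z + σ² m, x, y)| ≤ |σ|^θ` for all
  `|x|_∞, |y|_∞ ≤ T`; the mean of the total mass of `ρ(x) = |G(σ ξ, z, 0, x)|² / T` is between `c` and
  `1 / c`, the mean of its mass in `|x|_∞ ≤ |σ|^{ε - 1} √T` is at most `|σ|^θ`, and the mean of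
  `∑_x |x|_∞² ρ(x)` is at most `|σ|^{-2 - ε} T`. -/
theorem result (d : ℕ) (hd : 3 ≤ d) :
    ∃ G : (Site d → ℝ) → ℂ → Site d → Site d → ℂ,
    (∀ (V : Site d → ℝ) (z : ℂ), 0 < z.im → ∀ x : Site d,
      IsGreen V z x (G V z x) ∧ ∀ g, IsGreen V z x g → g = G V z x) ∧
    (∀ (z : ℂ) (x y : Site d), 0 < z.im → z.im ≤ 1 → Measurable fun V => G V z x y) ∧
    ∀ a ε : ℝ, 0 < a → 0 < ε → ε ≤ 1 → ∃ θ c : ℝ, 0 < θ ∧ 0 < c ∧
      ∀ σ : ℝ, σ ≠ 0 → |σ| ≤ c →
      (∀ E κ : ℝ, |E| ≤ 2 * d - a → Real.exp (-(|σ| ^ (-θ))) < κ →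
        Tendsto (fun L : ℕ => gauss (Site d) {ξ | Decays (fun x => σ * ξ x) E κ L}) atTop (𝓝 0)) ∧
      (∀ (M : ℕ) [NeZero M], |σ| ^ (-5 : ℝ) ≤ M → (M : ℝ) ≤ Real.exp (|σ| ^ (-θ)) →
        (Measure.pi fun _ : Fin d → ZMod M => gaussianReal 0 1)
          {ξ | ¬ ∀ (E : ℝ) (u : (Fin d → ZMod M) → ℂ), |E| ≤ 2 * d - a →
            (∀ x, hop u x + ((σ * ξ x : ℝ) : ℂ) * u x = (E : ℂ) * u x) →
              ∀ x, ‖u x‖ ^ 2 ≤ |σ| ^ (-ε) / (M : ℝ) ^ d * ∑ y, ‖u y‖ ^ 2} ≤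
          ENNReal.ofReal (Real.exp (-(|σ| ^ (-θ))))) ∧
      (∀ t : ℝ, |σ| ^ (-4 : ℝ) ≤ t → t ≤ Real.exp (|σ| ^ (-θ)) →
        gauss (Site d) {ξ | ¬ ∀ (R : ℕ) (E S : ℝ) (u : Site d → ℂ), 3 * d * t ≤ R →
          |E| ≤ 2 * d - a → S = ∑ x ∈ Loc.box 0 (R + 1), ‖u x‖ ^ 2 →
          ∑ x ∈ Loc.box 0 R, ‖hop u x + ((σ * ξ x - E : ℝ) : ℂ) * u x‖ ^ 2 ≤ S / t ^ 2 →
            (∀ x : Site d, (sd 0 x : ℝ) ≤ t → ‖u x‖ ^ 2 ≤ S / (c * t)) ∧
            ∀ A : Finset (Site d), (∀ x ∈ A, (sd 0 x : ℝ) ≤ t) → (A.card : ℝ) ≤ t →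
              ∑ x ∈ A, ‖u x‖ ^ 2 ≤ |σ| ^ θ * S} ≤
          ENNReal.ofReal (Real.exp (-(|σ| ^ (-θ))))) ∧
      ∀ E T : ℝ, |E| ≤ 2 * d - a → |σ| ^ (-3 : ℝ) ≤ T → T ≤ Real.exp (|σ| ^ (-θ)) →
        (∃ m : ℂ, c ≤ m.im ∧ ‖m‖ ≤ 1 / c ∧
          ‖m - G 0 (⟨E, 1 / T⟩ + (σ : ℂ) ^ 2 * m) 0 0‖ ≤ |σ| ^ θ ∧
          gauss (Site d) {ξ | ¬ ∀ x y : Site d, (sd 0 x : ℝ) ≤ T → (sd 0 y : ℝ) ≤ T →
            ‖G (fun x => σ * ξ x) ⟨E, 1 / T⟩ x y -
              G 0 (⟨E, 1 / T⟩ + (σ : ℂ) ^ 2 * m) x y‖ ≤ |σ| ^ θ} ≤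
            ENNReal.ofReal (Real.exp (-(|σ| ^ (-θ))))) ∧
        ENNReal.ofReal c ≤
          ∫⁻ ξ, ∑' x, dens G (fun x => σ * ξ x) E T x ∂(gauss (Site d)) ∧
        ∫⁻ ξ, ∑' x, dens G (fun x => σ * ξ x) E T x ∂(gauss (Site d)) ≤ ENNReal.ofReal (1 / c) ∧
        ∫⁻ ξ, ∑' x, (if (sd 0 x : ℝ) ≤ |σ| ^ (ε - 1) * Real.sqrt T then
          dens G (fun x => σ * ξ x) E T x else 0) ∂(gauss (Site d)) ≤ ENNReal.ofReal (|σ| ^ θ) ∧
        ∫⁻ ξ, ∑' x, (sd 0 x : ℝ≥0∞) ^ 2 * dens G (fun x => σ * ξ x) E T x ∂(gauss (Site d)) ≤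
          ENNReal.ofReal (|σ| ^ (-2 - ε) * T) := by
  have hd1 : 1 ≤ d := by omega
  refine ⟨fun V z x y => Pool.Agent.Helper54.Bal.G V z (del x) y, fun V z hz x => ?_,
    fun z x y hz hz1 => ?_, fun a ε ha hε hε1 => ?_⟩
  · have h := Pool.Agent.QDR.green d V z hz x
    exact ⟨h.1, fun g hg => h.2 g hg.1 hg.2⟩
  · exact Pool.Agent.QDR.measG d hd1 (E := z.re) (η := z.im) hz hz1 x y
  obtain ⟨θ₁, c₁, hθ₁, hc₁, hc₁', h1⟩ := Pool.Agent.LE.QZ.H54.qzfT d a hd ha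
  obtain ⟨θ₂, c₂, hθ₂, hc₂, hc₂', h2⟩ := Pool.Agent.LE.QY.H54.tevT d a ε hd ha hε hε1
  obtain ⟨θ₃, c₃, hθ₃, hc₃, hc₃', h3⟩ := Pool.Agent.LE.QY.H54.eizT d a hd ha
  obtain ⟨θ₄, c₄, hθ₄, hc₄, hc₄', h4⟩ := Pool.Agent.LE.QY.H54.locT d a hd ha
  obtain ⟨θ₅, c₅, hθ₅, hc₅, hc₅', h5⟩ := Pool.Agent.LE.QY.H54.tmzT d a hd ha
  obtain ⟨θ₆, c₆, hθ₆, hc₆, hc₆', h6⟩ := Pool.Agent.LE.QY.H54.mazT d a ε hd ha hε hε1
  obtain ⟨θ₇, c₇, hθ₇, hc₇, hc₇', h7⟩ := Pool.Agent.LE.QY.H54.smzT d a ε hd ha hε hε1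
  obtain ⟨θ, hθ, k1, k2, k3, k4, k5, k6, k7⟩ : ∃ θ : ℝ, 0 < θ ∧ θ ≤ θ₁ ∧ θ ≤ θ₂ ∧ θ ≤ θ₃ ∧
      θ ≤ θ₄ ∧ θ ≤ θ₅ ∧ θ ≤ θ₆ ∧ θ ≤ θ₇ :=
    ⟨min θ₁ (min θ₂ (min θ₃ (min θ₄ (min θ₅ (min θ₆ θ₇))))), by simp [*], by simp, by simp,
      by simp, by simp, by simp, by simp, by simp⟩
  obtain ⟨c, hc, l1, l2, l3, l4, l5, l6, l7⟩ : ∃ c : ℝ, 0 < c ∧ c ≤ c₁ ∧ c ≤ c₂ ∧ c ≤ c₃ ∧
      c ≤ c₄ ∧ c ≤ c₅ ∧ c ≤ c₆ ∧ c ≤ c₇ :=
    ⟨min c₁ (min c₂ (min c₃ (min c₄ (min c₅ (min c₆ c₇))))), by simp [*], by simp, by simp,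
      by simp, by simp, by simp, by simp, by simp⟩
  refine ⟨θ, c, hθ, hc, fun σ hσ hσc => ?_⟩
  have hs : 0 < |σ| := abs_pos.2 hσ
  have hs1 : |σ| ≤ 1 := by linarith
  -- monotonicity in `θ`
  have m1 : ∀ θ' : ℝ, θ ≤ θ' → |σ| ^ (-θ) ≤ |σ| ^ (-θ') := fun θ' h =>
    Real.rpow_le_rpow_of_exponent_ge hs hs1 (by linarith)
  have m2 : ∀ θ' : ℝ, θ ≤ θ' → |σ| ^ θ' ≤ |σ| ^ θ := fun θ' h =>
    Real.rpow_le_rpow_of_exponent_ge hs hs1 h
  have m3 : ∀ θ' : ℝ, θ ≤ θ' → Real.exp (|σ| ^ (-θ)) ≤ Real.exp (|σ| ^ (-θ')) := fun θ' h =>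
    Real.exp_le_exp.2 (m1 θ' h)
  have m4 : ∀ θ' : ℝ, θ ≤ θ' → Real.exp (-(|σ| ^ (-θ'))) ≤ Real.exp (-(|σ| ^ (-θ))) := fun θ' h =>
    Real.exp_le_exp.2 (neg_le_neg (m1 θ' h))
  have hc1 : 1 / c₄ ≤ 1 / c := one_div_le_one_div_of_le hc l4
  have hc5 : 1 / c₅ ≤ 1 / c := one_div_le_one_div_of_le hc l5
  refine ⟨fun E κ hE hκ => ?_, fun M _ hM1 hM2 => ?_, fun t ht1 ht2 => ?_,
    fun E T hE hT1 hT2 => ?_⟩
  · -- the rate of decay
    obtain ⟨g, hg⟩ := Pool.Agent.QDR.exists_lya hd1 hσ E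
    have e1 := (h1 σ E g hσ (hσc.trans l1) hE hg).trans (m4 _ k1)
    have e2 := Pool.Agent.QDR.pr_tendsto hg (lt_of_le_of_lt e1 hκ)
    have e3 : ∀ L : ℕ, gauss (Site d) {ξ | Decays (fun x => σ * ξ x) E κ L} =
        Pool.Agent.LE.H93.pr d σ E κ L := by
      intro L
      unfold Pool.Agent.LE.H93.pr
      rw [← Pool.Agent.QDR.map_eq d σ, Measure.map_apply (Pool.Agent.QDR.meas_mul σ)
        (Pool.Agent.LE.H93.meas_SG L κ E 0)]
      rfl
    simp only [e3]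
    exact e2
  · obtain ⟨v, hv⟩ : ∃ v : NNReal, (v : ℝ) = σ ^ 2 := ⟨⟨σ ^ 2, sq_nonneg σ⟩, rfl⟩
    have h := h2 M v σ hv hσ (hσc.trans l2) hM1 (hM2.trans (m3 _ k2))
    have h' := Pool.Agent.QDR.set_le_tor d M σ v hv _ h
    refine le_trans (measure_mono ?_) (h'.trans (ENNReal.ofReal_le_ofReal (m4 _ k2)))
    intro ξ hξ hcon
    apply hξ
    intro E u hE hu x
    refine hcon E u hE ?_ x
    funext x
    rw [Pool.Agent.QDR.hz_mul, Pi.zero_apply]
    have := hu x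
    unfold hop at this
    unfold Pool.Agent.QDR.hop
    linear_combination this
  · have h := h3 σ t hσ (hσc.trans l3) ht1 (ht2.trans (m3 _ k3))
    have h' := Pool.Agent.QDR.set_le d σ _ h
    refine le_trans (measure_mono ?_) (h'.trans (ENNReal.ofReal_le_ofReal (m4 _ k3)))
    intro ξ hξ hcon
    apply hξ
    intro R E S u hR hE hS hu
    have ht0 : 0 < t := lt_of_lt_of_le (by positivity) ht1
    have hS0 : 0 ≤ S := by
      rw [hS]
      exact Finset.sum_nonneg fun x _ => by positivity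
    have hsd : ∀ x : Site d, (sd 0 x : ℝ) ≤ t → ∀ i, |(x i : ℝ)| ≤ t := by
      intro x hx i
      refine le_trans ?_ hx
      have e1 : (x i).natAbs ≤ sd 0 x := by
        have := Finset.le_sup (f := fun i => ((0 : Site d) i - x i).natAbs) (Finset.mem_univ i)
        simpa [sd] using this
      have e2 : |(x i : ℝ)| = ((x i).natAbs : ℝ) := by
        rw [Nat.cast_natAbs, Int.cast_abs]
      rw [e2]
      exact_mod_cast e1
    obtain ⟨h8, h9⟩ := hcon R E S u hR hE hS.ge hu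
    refine ⟨fun x hx => ?_, fun A hA hAc => ?_⟩
    · refine (h8 x (hsd x hx)).trans ?_
      rw [one_div, inv_mul_eq_div]
      exact div_le_div_of_nonneg_left hS0 (by positivity) (by gcongr)
    · refine (h9 A (fun x hx => hsd x (hA x hx)) hAc).trans ?_
      exact mul_le_mul_of_nonneg_right (m2 _ k3) hS0
  · have hT0 : 1 ≤ T := by
      refine le_trans ?_ hT1
      exact Real.one_le_rpow_of_pos_of_le_one_of_nonpos hs hs1 (by norm_num)
    have hmr : ∀ x : Site d, Measurable fun V : Site d → ℝ =>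
        ENNReal.ofReal (Pool.Agent.LE.QY.rh V T E x) := fun x =>
      (Pool.Agent.QDR.meas_rh d hd1 hT0 x).ennreal_ofReal
    refine ⟨?_, ?_, ?_, ?_, ?_⟩
    · obtain ⟨m, g1, g2, g3, g4⟩ := h4 σ E T hσ (hσc.trans l4) hE hT1 (hT2.trans (m3 _ k4))
      refine ⟨m, l4.trans g1, g2.trans hc1, g3.trans (m2 _ k4), ?_⟩
      have h' := Pool.Agent.QDR.set_le d σ _ (g4 0)
      refine le_trans (measure_mono ?_) (h'.trans (ENNReal.ofReal_le_ofReal (m4 _ k4)))
      intro ξ hξ hcon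
      apply hξ
      intro x y hx hy
      exact (hcon x y hx hy).trans (m2 _ k4)
    · obtain ⟨g1, -⟩ := h5 σ E T hσ (hσc.trans l5) hE hT1 (hT2.trans (m3 _ k5))
      refine (ENNReal.ofReal_le_ofReal l5).trans (g1.trans (le_of_eq ?_))
      exact (Pool.Agent.QDR.lint_eq d σ _ (Measurable.tsum hmr)).symm
    · obtain ⟨-, g2⟩ := h5 σ E T hσ (hσc.trans l5) hE hT1 (hT2.trans (m3 _ k5))
      refine le_trans (le_of_eq ?_) (g2.trans (ENNReal.ofReal_le_ofReal hc5))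
      exact Pool.Agent.QDR.lint_eq d σ _ (Measurable.tsum hmr)
    · have g := h6 σ E T hσ (hσc.trans l6) hE hT1 (hT2.trans (m3 _ k6))
      refine le_trans (le_of_eq ?_) (g.trans (ENNReal.ofReal_le_ofReal (m2 _ k6)))
      refine Pool.Agent.QDR.lint_eq d σ (fun V => ∑' x : Site d,
        if (sd 0 x : ℝ) ≤ |σ| ^ (ε - 1) * Real.sqrt T then
          ENNReal.ofReal (Pool.Agent.LE.QY.rh V T E x) else 0) (Measurable.tsum fun x => ?_)
      by_cases hx : (sd 0 x : ℝ) ≤ |σ| ^ (ε - 1) * Real.sqrt T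
      · simpa only [if_pos hx] using hmr x
      · simpa only [if_neg hx] using measurable_const
    · have g := h7 σ E T hσ (hσc.trans l7) hE hT1 (hT2.trans (m3 _ k7))
      refine le_trans (le_of_eq ?_) g
      have e1 : ∀ (V : Site d → ℝ) (x : Site d),
          (sd 0 x : ℝ≥0∞) ^ 2 * ENNReal.ofReal (Pool.Agent.LE.QY.rh V T E x) =
          ENNReal.ofReal ((sd 0 x : ℝ) ^ 2 * Pool.Agent.LE.QY.rh V T E x) := by
        intro V x
        rw [ENNReal.ofReal_mul (by positivity), ENNReal.ofReal_pow (by positivity),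
          ENNReal.ofReal_natCast]
      simp only [← e1]
      exact Pool.Agent.QDR.lint_eq d σ (fun V => ∑' x : Site d, (sd 0 x : ℝ≥0∞) ^ 2 *
        ENNReal.ofReal (Pool.Agent.LE.QY.rh V T E x))
        (Measurable.tsum fun x => (hmr x).const_mul _)

end Pool.Agent.Results.MP_1906c1_mp.DelocalizedRegime

/-
Claim file of this hand-in (not in Results any more, kept for later use):

Proves: Let d >= 3, xi iid standard Gaussian on Z^d, H = Delta + sigma xi, s = |sigma|, G_V(z;x,y) the Green function of Delta+V, G = G_(sigma xi). For a > 0, 0 < eps <= 1 there are th, c > 0 so that if 0 < s <= c, N = exp(s^-th), for all |E| <= 2d-a: (1) if k > 1/N, the Green function at E of the cube |x| <= L is <= e^(-kL) from 0 to the boundary with probability -> 0 (L -> oo). (2) On the torus of side M, s^-5 <= M <= N, with probability >= 1-1/N all eigenfunctions u at all these E have |u(x)|^2 <= s^-eps M^-d ||u||^2. (3)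 If s^-4 <= t <= N, with probability >= 1-1/N, for all these E, R >= 3dt and u with ||(H-E)u||^2 <= S/t^2 on |x| <= R, S = sum of |u|^2 over |x| <= R+1: |u(x)|^2 <= S/(ct) if |x| <= t, and the sum of |u|^2 over <= t sites in |x| <= t is <= s^th S. (4) If s^-3 <= T <= N, z = E+i/T: for some m, c <= Im m, |m| <= 1/c, |m-G_0(z+s^2 m;0,0)| <= s^th, with probability >= 1-1/N |G(z;x,y)-G_0(z+s^2 m;x,y)| <= s^th for all |x|,|y| <= T; (5) with r(x) = |G(z;0,x)|^2/T the means of sum r, of sum r over |x| <= s^(eps-1) sqrt(T), of sum |x|^2 r are in [c,1/c], <= s^th, <= s^(-2-eps) T.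
Definitions: hop: Delta; IsGreen: G; gauss: law of xi; Decays: bound in (1); dens: r; sd: sup distance.
Relation: Partial, toward (2b); no continuous spectrum proved. Known: lengths up to powers of 1/s, most states (Schlag-Shubin-Wolff, Chen), diffusion at times s^(-2-k), k small (Erdos-Salmhofer-Yau). New as far as we know. Authors: helper54, 93 and others.
-/
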