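import Pool.Agent.Helper54_QDR.Base

/-!
# The delocalized regime: the final forms
-/

set_option autoImplicit false

open MeasureTheory ProbabilityTheory Function Filter

open scoped ENNReal BigOperators Topology NNReal ComplexOrder Matrix

noncomputable section

namespace Pool.Agent.QDR

open Pool.Agent.Anderson hiding box mem_box card_box
open Pool.Agent.Loc Pool.Agent.Mob Pool.Agent.Helper54.Bal
  Pool.Agent.Helper96.EXP Pool.Agent.BED
open Pool.Agent.LE Pool.Agent.LE.MN Pool.Agent.LE.CL Pool.Agent.LE.IR Pool.Agent.LE.QD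
  Pool.Agent.LE.QX Pool.Agent.LE.QY

/-- the sum over the nearest neighbours, on `ℤ^d` (`R = ℤ`) or on the torus (`R = ZMod M`) -/
def hop {d : ℕ} {R : Type} [Ring R] (u : (Fin d → R) → ℂ) (x : Fin d → R) : ℂ :=
  ∑ i, (u (x + Pi.single i 1) + u (x - Pi.single i 1))

theorem hz_mul {d M : ℕ} [NeZero M] (V : Tor d M → ℝ) (z : ℂ) (u : Tor d M → ℂ) (x : Tor d M) :
    (hz V z *ᵥ u) x = hop u x + ((V x : ℂ) - z) * u x := by
  classical
  unfold hz hop
  rw [Matrix.add_mulVec, Pi.add_apply, Matrix.mulVec_diagonal]
  congr 1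
  unfold Matrix.mulVec dotProduct adj
  simp only [Matrix.map_apply, Matrix.of_apply]
  push_cast
  simp only [Finset.sum_mul]
  rw [Finset.sum_comm]
  refine Finset.sum_congr rfl fun i _ => ?_
  simp only [add_mul, Finset.sum_add_distrib]
  congr 1
  · rw [Finset.sum_eq_single (x + ev i)]
    · rw [if_pos rfl]
      rw [Complex.ofReal_one, one_mul]
      rfl
    · intro y _ hy
      rw [if_neg hy, Complex.ofReal_zero, zero_mul]
    · intro h
      exact absurd (Finset.mem_univ _) h
  · rw [Finset.sum_eq_single (x - ev i)]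
    · rw [if_pos rfl]
      rw [Complex.ofReal_one, one_mul]
      rfl
    · intro y _ hy
      rw [if_neg hy, Complex.ofReal_zero, zero_mul]
    · intro h
      exact absurd (Finset.mem_univ _) h

/-- the Green function -/
theorem green (d : ℕ) (V : Site d → ℝ) (z : ℂ) (hz : 0 < z.im) (x : Site d) :
    (Summable (fun y => ‖G V z (del x) y‖ ^ 2) ∧
      ∀ y, hop (fun y => G V z (del x) y) y + ((V y : ℂ) - z) * G V z (del x) y =
        if y = x then 1 else 0) ∧
    ∀ g : Site d → ℂ, Summable (fun y => ‖g y‖ ^ 2) →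
      (∀ y, hop g y + ((V y : ℂ) - z) * g y = if y = x then 1 else 0) →
        g = fun y => G V z (del x) y := by
  have hdel : ∀ y : Site d, (del x : L2 d) y = if y = x then 1 else 0 := by
    intro y
    unfold del
    rw [lp.single_apply]
    by_cases h : y = x
    · subst h
      simp
    · rw [if_neg h]
      simp [h]
  refine ⟨⟨?_, fun y => ?_⟩, fun g hg hg2 => ?_⟩
  · have h1 := (lp.memℓp (G V z (del x))).summable (by norm_num)
    refine h1.congr fun y => ?_
    norm_num
  · rw [← hdel y]
    exact G_eq hz.ne' (del x) y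
  · have hmem : Memℓp g 2 := by
      rw [memℓp_gen_iff (by norm_num)]
      refine hg.congr fun y => ?_
      norm_num
    have h2 : (⟨g, hmem⟩ : L2 d) = G V z (del x) := by
      apply G_unique hz.ne'
      intro y
      rw [hdel y]
      exact hg2 y
    funext y
    rw [← h2]

end Pool.Agent.QDR
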